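import Pool.Agent.H30.EE.TargetsG

/-! # GPS: one general constant linear form -/

set_option autoImplicit false

open MvPolynomial SC Pool.Agent.H27.LV Pool.Agent.H17.VG Pool.Agent.H30.EE

namespace Pool.Agent.H68.EE

/-- injectivity is an open condition, points over an infinite subfield -/
theorem open_inj {k K V W κ : Type} [Field k] [Infinite k] [Field K] [Algebra k K]
    [AddCommGroup V] [Module K V] [FiniteDimensional K V] [AddCommGroup W] [Module K W] [Fintype κ]
    (A0 : V →ₗ[K] W) (A : V →ₗ[K] (κ → K) →ₗ[K] W) (ℓ : κ → K)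
    (h : ∀ v, A0 v + A v ℓ = 0 → v = 0) :
    ∃ l : κ → k, ∀ v, A0 v + A v (fun i => algebraMap k K (l i)) = 0 → v = 0 := by
  classical
  set d := Module.finrank K V
  set e : Module.Basis (Fin d) K V := Module.finBasis K V
  -- the linear maps
  set F : (κ → K) → V →ₗ[K] W := fun ℓ => A0 + A.flip ℓ with hF
  have hFv : ∀ ℓ v, F ℓ v = A0 v + A v ℓ := fun ℓ v => rfl
  have hinj : LinearMap.ker (F ℓ) = ⊥ := by
    rw [LinearMap.ker_eq_bot']
    exact h
  obtain ⟨g, hg⟩ := LinearMap.exists_leftInverse_of_injective _ hinj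
  set L : W →ₗ[K] (Fin d → K) := e.equivFun.toLinearMap.comp g with hL
  obtain ⟨f, hf⟩ : ∃ f : MvPolynomial κ K, ∀ Y : κ → K, eval Y f =
      (Matrix.of fun s t : Fin d => L (F Y (e t)) s).det := by
    refine ⟨(Matrix.of fun s t : Fin d => C (L (A0 (e t)) s) +
      ∑ j, C (L (A (e t) (Pi.single j 1)) s) * X j).det, fun Y => ?_⟩
    rw [RingHom.map_det]
    congr 1
    ext s t
    rw [RingHom.mapMatrix_apply, Matrix.map_apply, Matrix.of_apply, Matrix.of_apply, map_add,
      map_sum, hFv, map_add, Pi.add_apply, eval_C]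
    congr 1
    have h1 : Y = ∑ j, Y j • (Pi.single j (1 : K) : κ → K) := by
      ext j
      simp [Finset.sum_apply, Pi.single_apply]
    conv_rhs => rw [h1]
    rw [map_sum, map_sum, Finset.sum_apply]
    refine Finset.sum_congr rfl fun j _ => ?_
    rw [map_smul, map_smul, Pi.smul_apply, smul_eq_mul, map_mul, eval_C, eval_X, mul_comm]
  have hf0 : f ≠ 0 := by
    intro h0
    have h1 := hf ℓ
    have h2 : (Matrix.of fun s t : Fin d => L (F ℓ (e t)) s) = 1 := by
      ext s t
      rw [Matrix.of_apply, hL, LinearMap.comp_apply]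
      have h3 : g (F ℓ (e t)) = e t := LinearMap.congr_fun hg (e t)
      rw [h3]
      show e.equivFun (e t) s = _
      rw [Module.Basis.equivFun_self, Matrix.one_apply]
      by_cases hst : s = t
      · rw [if_pos hst, if_pos hst.symm]
      · rw [if_neg hst, if_neg (Ne.symm hst)]
    rw [h2, h0, map_zero, Matrix.det_one] at h1
    exact zero_ne_one h1
  obtain ⟨Y, hY, hYf⟩ : ∃ Y ∈ Set.pi Set.univ (fun _ : κ => Set.range (algebraMap k K)),
      eval Y f ≠ 0 := by
    by_contra hcon
    push Not at hcon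
    apply hf0
    refine funext_set (fun _ : κ => Set.range (algebraMap k K))
      (fun _ => Set.infinite_range_of_injective (algebraMap k K).injective) fun Y hY => ?_
    rw [map_zero]
    exact hcon Y hY
  have hY' : ∀ p, ∃ a : k, algebraMap k K a = Y p := fun p => hY p (Set.mem_univ p)
  choose q hq using hY'
  refine ⟨q, fun v hv => ?_⟩
  have hqY : (fun i => algebraMap k K (q i)) = Y := funext hq
  rw [hqY] at hv
  rw [hf] at hYf
  have hli : LinearIndependent K fun t : Fin d => F Y (e t) :=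
    LinearIndependent.of_comp L (Matrix.linearIndependent_cols_of_det_ne_zero hYf)
  have h3 : F Y v = 0 := hv
  have h4 : v = ∑ t, e.repr v t • e t := (e.sum_repr v).symm
  rw [h4, map_sum] at h3
  have h5 := (Fintype.linearIndependent_iff.1 hli) (fun t => e.repr v t) (by
    rw [← h3]
    exact Finset.sum_congr rfl fun t _ => by rw [map_smul])
  rw [h4]
  exact Finset.sum_eq_zero fun t _ => by rw [h5 t, zero_smul]

section res

variable {K : Type} [Field K] {n r : ℕ} (z : Fin (r + 1) → Fin (n + 1) → K)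

/-- the restrictions of the coordinates -/
noncomputable def cw (i : Fin (n + 1)) : Polynomial K :=
  ∑ j, Polynomial.C (z j i) * Polynomial.X ^ (j : ℕ)

theorem res_lin (ℓ : Fin (n + 1) → K) :
    resC z (lin ℓ) = Fintype.linearCombination K (cw z) ℓ := by
  unfold resC lin
  rw [map_sum, Fintype.linearCombination_apply]
  refine Finset.sum_congr rfl fun i _ => ?_
  rw [map_mul, aeval_X, aeval_C, Polynomial.algebraMap_apply, Algebra.algebraMap_self,
    RingHom.id_apply, Polynomial.smul_eq_C_mul]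
  rfl

theorem res_surj (hz : LinearIndependent K z) {P : Polynomial K} (hP : P.natDegree ≤ r) :
    ∃ ℓ : Fin (n + 1) → K, resC z (lin ℓ) = P := by
  classical
  have hinj : LinearMap.ker (Fintype.linearCombination K z) = ⊥ := by
    rw [LinearMap.ker_eq_bot]
    exact linearIndependent_iff_injective_fintypeLinearCombination.1 hz
  obtain ⟨g, hg⟩ := LinearMap.exists_leftInverse_of_injective _ hinj
  have hgz : ∀ j, g (z j) = Pi.single j 1 := by
    intro j
    have h1 := LinearMap.congr_fun hg (Pi.single j (1 : K))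
    simpa [Fintype.linearCombination_apply_single] using h1
  set f : (Fin (n + 1) → K) →ₗ[K] K :=
    (Fintype.linearCombination K fun j : Fin (r + 1) => P.coeff j).comp g with hf
  have hfz : ∀ j, f (z j) = P.coeff j := by
    intro j
    rw [hf, LinearMap.comp_apply, hgz, Fintype.linearCombination_apply_single, one_smul]
  refine ⟨fun i => f (Pi.single i 1), ?_⟩
  have hsum : ∀ x : Fin (n + 1) → K, ∑ i, f (Pi.single i 1) * x i = f x := by
    intro x
    have h1 : x = ∑ j, x j • (Pi.single j (1 : K) : Fin (n + 1) → K) := by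
      ext j
      simp [Finset.sum_apply, Pi.single_apply]
    conv_rhs => rw [h1, map_sum]
    refine Finset.sum_congr rfl fun i _ => ?_
    rw [map_smul, smul_eq_mul, mul_comm]
  rw [res_lin, Fintype.linearCombination_apply]
  unfold cw
  simp_rw [Finset.smul_sum]
  rw [Finset.sum_comm]
  have h2 : ∀ j : Fin (r + 1), ∑ i, f (Pi.single i 1) • (Polynomial.C (z j i) *
      Polynomial.X ^ (j : ℕ)) = Polynomial.C (P.coeff j) * Polynomial.X ^ (j : ℕ) := by
    intro j
    rw [← hfz j, ← hsum (z j), map_sum, Finset.sum_mul]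
    refine Finset.sum_congr rfl fun i _ => ?_
    rw [Polynomial.smul_eq_C_mul, ← mul_assoc, ← Polynomial.C_mul]
  rw [Finset.sum_congr rfl fun j _ => h2 j]
  rw [Finset.sum_range (n := r + 1) (fun j => Polynomial.C (P.coeff j) * Polynomial.X ^ j) |>.symm]
  exact (Polynomial.as_sum_range_C_mul_X_pow' P (by omega)).symm

end res

theorem mem_mlt {K : Type} [Field K] {p y : Polynomial K} : y ∈ mlt p ↔ p ∣ y := by
  unfold mlt
  rw [LinearMap.mem_range]
  constructor
  · rintro ⟨u, rfl⟩
    exact ⟨u, rfl⟩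
  · rintro ⟨u, rfl⟩
    exact ⟨u, rfl⟩

theorem exists_prod {K : Type} [Field K] [Infinite K] (Y : Submodule K (Polynomial K))
    [FiniteDimensional K Y] (r : ℕ) : ∃ P : Polynomial K, P ≠ 0 ∧ P.natDegree ≤ r ∧
      Module.finrank K ↥(Y ⊓ mlt P) ≤ Module.finrank K Y - r := by
  induction r with
  | zero =>
    exact ⟨1, one_ne_zero, by simp, by
      rw [Nat.sub_zero]
      exact Submodule.finrank_mono inf_le_left⟩
  | succ r ih =>
    obtain ⟨P, hP0, hPr, hPY⟩ := ih
    have : FiniteDimensional K ↥(Y ⊓ mlt P) := Submodule.finiteDimensional_of_le inf_le_left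
    by_cases hbot : Y ⊓ mlt P = ⊥
    · refine ⟨P, hP0, by omega, ?_⟩
      rw [hbot, finrank_bot]
      exact Nat.zero_le _
    · obtain ⟨y, hy, hy0⟩ := Submodule.exists_mem_ne_zero_of_ne_bot hbot
      obtain ⟨c, hc⟩ : ∃ c, y.eval c ≠ 0 := by
        by_contra hcon
        push Not at hcon
        exact hy0 (Polynomial.funext fun c => by rw [hcon c, Polynomial.eval_zero])
      refine ⟨P * (Polynomial.X - Polynomial.C c), mul_ne_zero hP0 (Polynomial.X_sub_C_ne_zero c),
        ?_, ?_⟩
      · refine Polynomial.natDegree_mul_le.trans ?_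
        rw [Polynomial.natDegree_X_sub_C]
        omega
      · have hlt : Y ⊓ mlt (P * (Polynomial.X - Polynomial.C c)) < Y ⊓ mlt P := by
          refine lt_of_le_of_ne ?_ ?_
          · intro u hu
            exact ⟨hu.1, mem_mlt.2 ((dvd_mul_right _ _).trans (mem_mlt.1 hu.2))⟩
          · intro heq
            rw [← heq] at hy
            obtain ⟨u, hu⟩ := mem_mlt.1 hy.2
            apply hc
            rw [hu]
            simp
        have h1 := Submodule.finrank_lt_finrank_of_lt hlt
        omega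

theorem exists_deg {K : Type} [Field K] (Y : Submodule K (Polynomial K))
    [FiniteDimensional K Y] : ∃ M : ℕ, 1 ≤ M ∧ ∀ y ∈ Y, y.natDegree < M := by
  classical
  have hfg : Y.FG := Module.Finite.iff_fg.1 inferInstance
  obtain ⟨S, hS⟩ := hfg
  refine ⟨S.sup Polynomial.natDegree + 1, by omega, fun y hy => ?_⟩
  have h1 : Y ≤ Polynomial.degreeLT K (S.sup Polynomial.natDegree + 1) := by
    rw [← hS, Submodule.span_le]
    intro s hs
    rw [SetLike.mem_coe, Polynomial.mem_degreeLT]
    refine lt_of_le_of_lt Polynomial.degree_le_natDegree ?_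
    have h2 : s.natDegree ≤ S.sup Polynomial.natDegree := Finset.le_sup hs
    exact_mod_cast Nat.lt_succ_of_le h2
  have h2 := Polynomial.mem_degreeLT.1 (h1 hy)
  by_cases hy0 : y = 0
  · rw [hy0]
    simp
  · rw [Polynomial.degree_eq_natDegree hy0] at h2
    exact_mod_cast h2

theorem pf_GPS : T_GPS := by
  classical
  intro k K _ _ _ _ n r z hz Y _
  have hKinf : Infinite K := Infinite.of_injective _ (algebraMap k K).injective
  obtain ⟨P, hP0, hPr, hPY⟩ := exists_prod Y r
  obtain ⟨ℓ, hℓ⟩ := res_surj z hz hPr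
  obtain ⟨M, hM1, hM⟩ := exists_deg Y
  -- a complement
  obtain ⟨Y₁, hY₁⟩ := Submodule.exists_isCompl (Y ⊓ mlt P)
  set Y₀ : Submodule K (Polynomial K) := Y₁ ⊓ Y with hY₀
  have hY₀Y : Y₀ ≤ Y := inf_le_right
  have hfd0 : FiniteDimensional K Y₀ := Submodule.finiteDimensional_of_le hY₀Y
  have hfdP : FiniteDimensional K ↥(Y ⊓ mlt P) := Submodule.finiteDimensional_of_le inf_le_left
  have hdis : (Y ⊓ mlt P) ⊓ Y₀ = ⊥ := by
    rw [eq_bot_iff]
    refine le_trans ?_ hY₁.1.le_bot
    exact le_inf inf_le_left (inf_le_right.trans inf_le_left)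
  have hsup : (Y ⊓ mlt P) ⊔ Y₀ = Y := by
    rw [hY₀, ← sup_inf_assoc_of_le Y₁ (inf_le_left : Y ⊓ mlt P ≤ Y), hY₁.sup_eq_top, top_inf_eq]
  have hdim := Submodule.finrank_sup_add_finrank_inf_eq (Y ⊓ mlt P) Y₀
  rw [hdis, hsup, finrank_bot, add_zero] at hdim
  -- the linear maps
  have hfM : FiniteDimensional K (Polynomial.degreeLT K M) :=
    Module.Finite.equiv (Polynomial.degreeLTEquiv K M).symm
  set A0 : (Y₀ × Polynomial.degreeLT K M) →ₗ[K] Polynomial K :=
    Y₀.subtype.comp (LinearMap.fst K _ _) with hA0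
  set A : (Y₀ × Polynomial.degreeLT K M) →ₗ[K] (Fin (n + 1) → K) →ₗ[K] Polynomial K :=
    -(((LinearMap.mul K (Polynomial K)).flip.comp
      ((Polynomial.degreeLT K M).subtype.comp (LinearMap.snd K _ _))).compl₂
        (Fintype.linearCombination K (cw z))) with hA
  have hAv : ∀ (v : Y₀ × Polynomial.degreeLT K M) (ℓ : Fin (n + 1) → K),
      A0 v + A v ℓ = (v.1 : Polynomial K) - resC z (lin ℓ) * (v.2 : Polynomial K) := by
    intro v ℓ
    rw [res_lin, sub_eq_add_neg]
    rfl
  obtain ⟨l, hl⟩ := open_inj (k := k) A0 A ℓ (by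
    intro v hv
    rw [hAv, hℓ, sub_eq_zero] at hv
    have h1 : (v.1 : Polynomial K) ∈ (Y ⊓ mlt P) ⊓ Y₀ :=
      ⟨⟨hY₀Y v.1.2, mem_mlt.2 ⟨_, hv⟩⟩, v.1.2⟩
    rw [hdis, Submodule.mem_bot] at h1
    have h2 : (v.2 : Polynomial K) = 0 := by
      rw [h1] at hv
      exact (mul_eq_zero.1 hv.symm).resolve_left hP0
    exact Prod.ext (Subtype.ext h1) (Subtype.ext h2))
  have hne : resC z (lin (ul K l)) ≠ 0 := by
    intro h0
    have h1 : (1 : Polynomial K) ∈ Polynomial.degreeLT K M := by
      rw [Polynomial.mem_degreeLT, Polynomial.degree_one]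
      exact_mod_cast hM1
    have h2 := hl (0, ⟨1, h1⟩) (by
      rw [hAv]
      have h3 : resC z (lin fun i => algebraMap k K (l i)) = 0 := h0
      rw [h3]
      simp)
    have h3 := congrArg (fun v : Y₀ × Polynomial.degreeLT K M => (v.2 : Polynomial K)) h2
    exact one_ne_zero h3
  refine ⟨l, hne, ?_⟩
  have hfdl : FiniteDimensional K ↥(Y ⊓ mlt (resC z (lin (ul K l)))) :=
    Submodule.finiteDimensional_of_le inf_le_left
  have hdis2 : (Y ⊓ mlt (resC z (lin (ul K l)))) ⊓ Y₀ = ⊥ := by
    rw [eq_bot_iff]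
    rintro y ⟨⟨hy1, hy2⟩, hy3⟩
    rw [Submodule.mem_bot]
    by_contra hy0
    obtain ⟨u, hu⟩ := mem_mlt.1 hy2
    have hu0 : u ≠ 0 := by
      rintro rfl
      exact hy0 (by rw [hu, mul_zero])
    have huM : u ∈ Polynomial.degreeLT K M := by
      rw [Polynomial.mem_degreeLT, Polynomial.degree_eq_natDegree hu0]
      have h1 : u.natDegree ≤ y.natDegree := by
        rw [hu, Polynomial.natDegree_mul hne hu0]
        omega
      exact_mod_cast lt_of_le_of_lt h1 (hM y hy1)
    have h2 := hl (⟨y, hy3⟩, ⟨u, huM⟩) (by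
      rw [hAv, sub_eq_zero]
      exact hu)
    have h3 := congrArg (fun v : Y₀ × Polynomial.degreeLT K M => (v.1 : Polynomial K)) h2
    exact hy0 h3
  have hle : (Y ⊓ mlt (resC z (lin (ul K l)))) ⊔ Y₀ ≤ Y := sup_le inf_le_left hY₀Y
  have hdim2 := Submodule.finrank_sup_add_finrank_inf_eq (Y ⊓ mlt (resC z (lin (ul K l)))) Y₀
  rw [hdis2, finrank_bot, add_zero] at hdim2
  have h4 := Submodule.finrank_mono hle
  omega

end Pool.Agent.H68.EE
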