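import Pool.Agent.H30.EE.TargetsP

/-! # HNE: existence of the largest maximiser -/

set_option autoImplicit false

open Pool.Agent.H30.EE

namespace Pool.Agent.H68.EE

theorem pf_HNE : T_HNE := by
  intro K V _ _ _ M _ φ μ hμ hφ hsup
  have hfd : ∀ U ≤ M, FiniteDimensional K U := fun U hU => Submodule.finiteDimensional_of_le hU
  have hrk : ∀ U ≤ M, Module.finrank K U ≤ Module.finrank K M :=
    fun U hU => Submodule.finrank_mono hU
  set m : ℕ := Module.finrank K M with hm
  -- the integral function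
  set g : Submodule K V → ℤ := fun U => (μ.den : ℤ) * φ U + μ.num * Module.finrank K U with hg
  have hgf : ∀ U, (g U : ℚ) = μ.den * fmu φ μ U := by
    intro U
    have h1 : (μ.num : ℚ) = μ.den * μ := by
      rw [mul_comm]
      exact (Rat.mul_den_eq_num μ).symm
    simp only [hg, fmu]
    push_cast
    rw [h1]
    ring
  have hden : (0 : ℚ) < μ.den := by exact_mod_cast μ.den_pos
  have hnum : 0 ≤ μ.num := Rat.num_nonneg.2 hμ
  have hgb : ∀ U ≤ M, g U ≤ μ.num * m := by
    intro U hU
    have h1 : (μ.den : ℤ) * φ U ≤ 0 := mul_nonpos_of_nonneg_of_nonpos (by positivity) (hφ U hU)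
    have h2 : μ.num * (Module.finrank K U : ℤ) ≤ μ.num * m :=
      mul_le_mul_of_nonneg_left (by exact_mod_cast hrk U hU) hnum
    simp only [hg]
    linarith
  -- a maximiser of the combined function
  obtain ⟨z, ⟨J, hJM, hJz⟩, hz⟩ := Int.exists_greatest_of_bdd
    (P := fun z => ∃ U ≤ M, g U * (m + 1) + Module.finrank K U = z)
    ⟨μ.num * m * (m + 1) + m, by
      rintro z ⟨U, hU, rfl⟩
      have h1 := hgb U hU
      have h2 : (Module.finrank K U : ℤ) ≤ m := by exact_mod_cast hrk U hU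
      have h3 : g U * ((m : ℤ) + 1) ≤ μ.num * m * (m + 1) :=
        mul_le_mul_of_nonneg_right h1 (by positivity)
      linarith⟩ ⟨_, ⊥, bot_le, rfl⟩
  have hmax : ∀ U ≤ M, g U * (m + 1) + Module.finrank K U ≤
      g J * (m + 1) + Module.finrank K J := by
    intro U hU
    rw [hJz]
    exact hz _ ⟨U, hU, rfl⟩
  have hgmax : ∀ U ≤ M, g U ≤ g J := by
    intro U hU
    by_contra hcon
    rw [not_le] at hcon
    have h1 := hmax U hU
    have h2 : (Module.finrank K J : ℤ) ≤ m := by exact_mod_cast hrk J hJM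
    have h3 : (0 : ℤ) ≤ Module.finrank K U := by positivity
    have h4 : (g J + 1) * ((m : ℤ) + 1) ≤ g U * (m + 1) :=
      mul_le_mul_of_nonneg_right (by omega) (by positivity)
    linarith
  have hfmax : ∀ U ≤ M, fmu φ μ U ≤ fmu φ μ J := by
    intro U hU
    have h1 : (g U : ℚ) ≤ g J := by exact_mod_cast hgmax U hU
    rw [hgf, hgf] at h1
    exact le_of_mul_le_mul_left h1 hden
  refine ⟨J, hJM, hfmax, ?_⟩
  intro J' hJ' heq
  have := hfd J hJM
  have := hfd J' hJ'
  have hs := hsup J hJM J' hJ'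
  have hdim := Submodule.finrank_sup_add_finrank_inf_eq J J'
  have hsM : J ⊔ J' ≤ M := sup_le hJM hJ'
  have hiM : J ⊓ J' ≤ M := inf_le_left.trans hJM
  have h1 : fmu φ μ J + fmu φ μ J' ≤ fmu φ μ (J ⊓ J') + fmu φ μ (J ⊔ J') := by
    have h2 : (φ J : ℚ) + φ J' ≤ φ (J ⊓ J') + φ (J ⊔ J') := by exact_mod_cast hs
    have h3 : (Module.finrank K ↥(J ⊔ J') : ℚ) + Module.finrank K ↥(J ⊓ J') =
        Module.finrank K J + Module.finrank K J' := by exact_mod_cast hdim
    have h4 : μ * (Module.finrank K ↥(J ⊔ J') : ℚ) + μ * Module.finrank K ↥(J ⊓ J') =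
        μ * Module.finrank K J + μ * Module.finrank K J' := by
      rw [← mul_add, h3, mul_add]
    unfold fmu
    linarith
  have h5 := hfmax _ hiM
  have h6 : fmu φ μ (J ⊔ J') = fmu φ μ J := le_antisymm (hfmax _ hsM) (by linarith)
  have h7 : g (J ⊔ J') = g J := by
    have : (g (J ⊔ J') : ℚ) = g J := by rw [hgf, hgf, h6]
    exact_mod_cast this
  have h8 := hmax _ hsM
  rw [h7] at h8
  have h9 : Module.finrank K ↥(J ⊔ J') ≤ Module.finrank K J := by
    have : (Module.finrank K ↥(J ⊔ J') : ℤ) ≤ Module.finrank K J := by linarith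
    exact_mod_cast this
  have h10 : FiniteDimensional K ↥(J ⊔ J') := hfd _ hsM
  have h11 : J = J ⊔ J' := Submodule.eq_of_le_of_finrank_le le_sup_left h9
  rw [h11]
  exact le_sup_right

end Pool.Agent.H68.EE
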