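import Pool.Agent.H30.EE.TargetsP

/-! # JML: products with constant forms -/

set_option autoImplicit false

open MvPolynomial SC Pool.Agent.H27.LV Pool.Agent.H17.VG Pool.Agent.H30.EE

namespace Pool.Agent.H68.EE

theorem pf_JML (hMUL : T_MUL) (hDSP : T_DSP) (hHNB : T_HNB) : T_JML := by
  intro k K _ _ _ _ _ _ htr n a b x μ J J' hx hJ hJ' G hG hGb
  have hMS : ∀ d, Md d x ≤ Sd K n d := fun d => inf_le_left
  have hfd : FiniteDimensional K (Sd K n (a + b)) :=
    Module.Finite.iff_fg.2 (homogeneousSubmodule_fg _ _ _)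
  have : FiniteDimensional K (Md (a + b) x) := Submodule.finiteDimensional_of_le (hMS _)
  have hsup := (hDSP k K htr n (a + b)).2.2.2.1
  have hB := hHNB K _ (Md (a + b) x) (dS k n (a + b)) μ J'
    (fun U hU U' hU' => hsup U (hU.trans (hMS _)) U' (hU'.trans (hMS _))) hJ'
  have hupG : up K G ≠ 0 := by
    intro h
    apply hG
    unfold up at h
    exact (MvPolynomial.map_injective _ (algebraMap k K).injective) (by rw [h, map_zero])
  have hinj : Function.Injective (LinearMap.mulLeft K (up K G)) := by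
    intro u v huv
    rw [LinearMap.mulLeft_apply, LinearMap.mulLeft_apply] at huv
    exact mul_left_cancel₀ hupG huv
  have hfm : ∀ W ≤ Sd K n a, fmu (dS k n (a + b)) μ (mulW (up K G) W) = fmu (dS k n a) μ W := by
    intro W hW
    unfold fmu
    rw [hMUL k K htr n a b G hG hGb W hW]
    have h1 : Module.finrank K ↥(mulW (up K G) W) = Module.finrank K W :=
      (Submodule.equivMapOfInjective _ hinj W).finrank_eq.symm
    rw [h1]
  refine hB.2.1 _ ?_ ?_
  · -- the product is in `Md (a + b) x`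
    rintro _ ⟨w, hw, rfl⟩
    have h1 := hJ.le hw
    rw [Md, Submodule.mem_inf] at h1 ⊢
    obtain ⟨h1, h2⟩ := h1
    rw [LinearMap.mem_ker, AlgHom.toLinearMap_apply] at h2 ⊢
    rw [LinearMap.mulLeft_apply]
    refine ⟨?_, by rw [map_mul, h2, mul_zero]⟩
    rw [mem_homogeneousSubmodule] at h1 ⊢
    exact (add_comm b a) ▸ ((hGb.map (algebraMap k K)).mul h1)
  · intro U' hU'
    have h1 : U' = mulW (up K G) (U'.comap (LinearMap.mulLeft K (up K G))) := by
      unfold mulW at hU' ⊢
      rw [Submodule.map_comap_eq, inf_eq_right.2]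
      rintro _ hu
      obtain ⟨w, -, rfl⟩ := hU' hu
      exact ⟨w, rfl⟩
    have h2 : U'.comap (LinearMap.mulLeft K (up K G)) ≤ J := by
      intro w hw
      obtain ⟨w', hw', hww⟩ := hU' (Submodule.mem_comap.1 hw)
      rwa [← hinj hww]
    rw [h1, hfm _ ((h2.trans hJ.le).trans (hMS _)), hfm _ (hJ.le.trans (hMS _))]
    exact hJ.mx _ (h2.trans hJ.le)

end Pool.Agent.H68.EE
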