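import Pool.Agent.H30.EE.TargetsF
import Pool.Agent.H17.VG.AL

/-! # PHS: one phase -/

set_option autoImplicit false

open MvPolynomial SC Pool.Agent.H27.LV Pool.Agent.H17.VG Pool.Agent.H30.EE

namespace Pool.Agent.H68.EE

/-- the vector and its derivative are independent if the height is positive -/
theorem indep_of_hgt (hHG : T_HG) (k K : Type) [Field k] [IsAlgClosed k] [CharZero k] [Field K]
    [Algebra k K] [Algebra.EssFiniteType k K] (htr : Algebra.trdeg k K = 1) {n : ℕ}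
    (D : Derivation k K K) (hD : D ≠ 0) (x : Fin (n + 1) → K) (hx : 0 < hgt k x) :
    x ≠ 0 ∧ Indep x (fun i => D (x i)) := by
  obtain ⟨-, -, h1, h2, -⟩ := hHG k K htr (Fin (n + 1)) x
  have hx0 : x ≠ 0 := by
    rintro rfl
    have h3 := (hHG k K htr (Fin (n + 1)) (0 : Fin (n + 1) → K)).2.2.2.1 (fun _ => 0)
    have h4 : (fun _ : Fin (n + 1) => algebraMap k K 0) = 0 := by
      funext i
      rw [map_zero]
      rfl
    rw [h4] at h3
    omega
  refine ⟨hx0, ?_⟩
  obtain ⟨p, hp⟩ := Function.ne_iff.1 hx0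
  rw [Pi.zero_apply] at hp
  unfold Indep
  rw [LinearIndependent.pair_iff' hx0]
  intro c hc
  have hcj : ∀ j, D (x j) = c * x j := fun j => (congrFun hc j).symm
  have hk : ∀ j, D ((x p)⁻¹ * x j) = 0 := by
    intro j
    rw [D.leibniz, D.leibniz_inv, hcj, hcj]
    simp only [smul_eq_mul]
    field_simp
    ring
  have hr : ∀ j, (x p)⁻¹ * x j ∈ Set.range (algebraMap k K) := fun j =>
    Pool.Agent.H27.LV.ker k K htr D hD _ (hk j)
  choose a ha using hr
  have h5 := h1 (x p)⁻¹ (inv_ne_zero hp)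
  have h6 : (x p)⁻¹ • x = fun i => algebraMap k K (a i) := by
    funext i
    rw [ha]
    rfl
  rw [h6, h2 a] at h5
  omega

theorem pf_PHS (hHG : T_HG) (hDSP : T_DSP) (hHNE : T_HNE) (hHNB : T_HNB) (hQSL : T_QSL)
    (hHIN : T_HIN) (hIFR : T_IFR) (hPP3 : T_PP3) (hG : Pool.Agent.H17.VG.T_G)
    (hSO : Pool.Agent.H17.VG.T_SO) : T_PHS := by
  intro k _ _ _ n e c he hc K _ _ _ htr D hD x hx hF S hS r a B L μ hrn hxL hL hμ hμh hB hBa hae
    h1 h2
  obtain ⟨R, hR⟩ := hG k n e c he hc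
  obtain ⟨D', hD', hsys, hrat⟩ := hR K htr D hD
  have hcK : CharZero K := charZero_of_injective_algebraMap (algebraMap k K).injective
  obtain ⟨hx0, hxD⟩ := indep_of_hgt hHG k K htr D hD x hx
  have hxD' : Indep x fun i => D' (x i) := by
    have : (fun i => D' (x i)) = fun i => D (x i) := funext fun i => hD' _
    rw [this]
    exact hxD
  have hsm := hSO k n e c hc
  have hMS : Md (e + 1) x ≤ Sd K n (e + 1) := inf_le_left
  have hfd : FiniteDimensional K (Sd K n (e + 1)) :=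
    Module.Finite.iff_fg.2 (homogeneousSubmodule_fg _ _ _)
  have hfdM : FiniteDimensional K (Md (e + 1) x) := Submodule.finiteDimensional_of_le hMS
  obtain ⟨-, -, hd3, hd4, -⟩ := hDSP k K htr n (e + 1)
  have hsup : ∀ U ≤ Md (e + 1) x, ∀ U' ≤ Md (e + 1) x, dS k n (e + 1) U + dS k n (e + 1) U' ≤
      dS k n (e + 1) (U ⊓ U') + dS k n (e + 1) (U ⊔ U') :=
    fun U hU U' hU' => hd4 U (hU.trans hMS) U' (hU'.trans hMS)
  obtain ⟨J, hJ⟩ := hHNE K _ (Md (e + 1) x) (dS k n (e + 1)) μ hμ.le (fun U _ => hd3 U) hsup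
  obtain ⟨-, -, hB3⟩ := hHNB K _ (Md (e + 1) x) (dS k n (e + 1)) μ J hsup hJ
  have hQ := hQSL k K htr n (e + 1) x hx0
  have hTM : TL R (e + 1) (up K (frm c)) x L ≤ Md (e + 1) x := by
    unfold TL
    rw [Submodule.span_le]
    rintro G ⟨hG, -⟩
    exact hG
  have h3 := hB3 (hgt k x) (fun U hU => by exact_mod_cast hQ U hU) _ hTM
  have h4 := hHIN R k K htr n e r (frm c) (frm_homog c) hsm D D' hD hD' hsys hrat x hxD hF S hS L
    hxL hL
  have h5 := hIFR R K n e r (up K (frm c)) D' x L hsys hxD' hF hxL hL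
  refine hPP3 k K htr n a (e + 1) B x μ hx hB hBa (by omega) hμ h1 J hJ ?_
  -- numbers
  have h4' : ((dS k n (e + 1) (Md (e + 1) x) : ℚ) -
      dS k n (e + 1) (TL R (e + 1) (up K (frm c)) x L)) ≤
      ((canDeg D : ℤ) + S.card) - n * dg k L + ((r : ℚ) - e) * hgt k x := by
    exact_mod_cast h4
  have h5' : (Module.finrank K (TL R (e + 1) (up K (frm c)) x L) : ℚ) +
      ((r : ℚ) + 1) * ((n : ℚ) - r + 1) = Module.finrank K (Md (e + 1) x) + 2 := by
    have h6 : ((n - r : ℕ) : ℚ) = (n : ℚ) - r := by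
      rw [Nat.cast_sub hrn]
    rw [← h6]
    exact_mod_cast h5
  set h : ℚ := (hgt k x : ℚ) with hh
  set X : ℚ := (Module.finrank K (Md (e + 1) x) : ℚ) - Module.finrank K J with hX
  have h7 : ((e : ℚ) - r) * h - ((canDeg D : ℤ) + S.card) + n * dg k L -
      μ * ((r + 1) * (n - r + 1) - 2) ≤ (h - μ) * X := by
    refine le_trans ?_ h3
    have h8 : (Module.finrank K (Md (e + 1) x) : ℚ) -
        Module.finrank K (TL R (e + 1) (up K (frm c)) x L) =
        (r + 1) * (n - r + 1) - 2 := by linarith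
    rw [h8]
    linarith
  have h9 : μ * (((e : ℚ) - r) * h - ((canDeg D : ℤ) + S.card) + n * dg k L -
      μ * ((r + 1) * (n - r + 1) - 2)) ≤ μ * ((h - μ) * X) := mul_le_mul_of_nonneg_left h7 hμ.le
  have h10 : (2 * a - 2 : ℚ) * h * (h - μ) < μ * X * (h - μ) := by
    refine lt_of_lt_of_le h2 (h9.trans (le_of_eq ?_))
    ring
  exact lt_of_mul_lt_mul_right h10 (by linarith)

end Pool.Agent.H68.EE
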